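import Mathlib
import Pool.Agent.U707.PT.Stm

/-!
# Project PT, package RING (helper962)
-/

set_option autoImplicit false

open Polynomial Module

namespace Pool.Agent.U962.PT

open Pool.Agent.U707.PT

section single

variable {E : Type} [Field E] [CharZero E] {V : Type} [AddCommGroup V] [Module E V]
  [FiniteDimensional E V]

theorem pow_finrank {x : Module.End E V} (hx : IsNilpotent x) : x ^ finrank E V = 0 := by
  have h := (LinearMap.isNilpotent_iff_charpoly x).mp hx
  rw [← @aeval_X_pow E, ← h, LinearMap.aeval_self_charpoly x]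

/-- The `ℚ`-algebra structure of an `E`-algebra. -/
noncomputable abbrev ratAlg (E A : Type) [Field E] [CharZero E] [Ring A] [Algebra E A] :
    Algebra ℚ A := Algebra.compHom A (algebraMap ℚ E)

theorem sum_eq_exp {x : Module.End E V} {n : ℕ} (hn : x ^ n = 0) :
    ∑ k ∈ Finset.range n, ((k.factorial : E)⁻¹) • x ^ k =
      @IsNilpotent.exp _ _ (ratAlg E (Module.End E V)).toModule x := by
  letI := ratAlg E (Module.End E V)
  rw [IsNilpotent.exp_eq_sum hn]
  refine Finset.sum_congr rfl fun k _ => ?_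
  change _ = (algebraMap ℚ E ((k.factorial : ℚ)⁻¹)) • x ^ k
  rw [map_inv₀, map_natCast]

theorem expN_eq_exp {x : Module.End E V} (hx : IsNilpotent x) :
    expN x = @IsNilpotent.exp _ _ (ratAlg E (Module.End E V)).toModule x := by
  rw [expN, sum_eq_exp]
  rw [pow_succ, pow_finrank hx, zero_mul]

theorem expN_eq_sum {x : Module.End E V} (hx : IsNilpotent x) {n : ℕ} (hn : x ^ n = 0) :
    expN x = ∑ k ∈ Finset.range n, ((k.factorial : E)⁻¹) • x ^ k := by
  rw [expN_eq_exp hx, sum_eq_exp hn]

theorem nil_smul {N : Module.End E V} (hN : IsNilpotent N) (a : E) : IsNilpotent (a • N) := by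
  obtain ⟨n, hn⟩ := hN
  exact ⟨n, by rw [_root_.smul_pow, hn, smul_zero]⟩

theorem X_zero (N : Module.End E V) : expN ((0 : E) • N) = 1 := by
  rw [zero_smul, expN_eq_sum (IsNilpotent.zero) (n := 1) (by simp)]
  simp

theorem X_mul {N : Module.End E V} (hN : IsNilpotent N) (a b : E) :
    expN (a • N) * expN (b • N) = expN ((a + b) • N) := by
  letI := ratAlg E (Module.End E V)
  rw [expN_eq_exp (nil_smul hN a), expN_eq_exp (nil_smul hN b), expN_eq_exp (nil_smul hN _),
    add_smul, IsNilpotent.exp_add_of_commute _ (nil_smul hN a) (nil_smul hN b)]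
  exact ((Commute.refl N).smul_left a).smul_right b

theorem X_semiconj {N f : Module.End E V} {s : E}
    (h : f * N = (s • N) * f) (a : E) : f * expN (a • N) = expN ((s * a) • N) * f := by
  have hp : ∀ k : ℕ, f * N ^ k = (s ^ k • N ^ k) * f := by
    intro k
    induction k with
    | zero => simp
    | succ k ih =>
      rw [pow_succ N, ← mul_assoc, ih, mul_assoc, h, ← mul_assoc, smul_mul_smul_comm, ← pow_succ,
        ← pow_succ]
  rw [expN, expN, Finset.mul_sum, Finset.sum_mul]
  refine Finset.sum_congr rfl fun k _ => ?_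
  rw [_root_.smul_pow, _root_.smul_pow, mul_smul_comm, mul_smul_comm, hp, smul_mul_assoc, smul_mul_assoc,
    smul_mul_assoc, mul_pow, smul_smul (a ^ k), mul_comm (a ^ k)]

theorem X_commute {N f : Module.End E V} (h : Commute f N) (a : E) :
    Commute f (expN (a • N)) := by
  have h1 : f * N = ((1 : E) • N) * f := by rw [one_smul]; exact h
  have := X_semiconj h1 a
  rw [one_mul] at this
  exact this

theorem X_apply {N : Module.End E V} (a : E) {x : V} (hx : N x = 0) :
    expN (a • N) x = x := by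
  rw [expN, LinearMap.sum_apply, Finset.sum_eq_single 0]
  · simp
  · intro k _ hk
    obtain ⟨j, rfl⟩ := Nat.exists_eq_succ_of_ne_zero hk
    rw [_root_.smul_pow, pow_succ N, LinearMap.smul_apply, LinearMap.smul_apply, Module.End.mul_apply, hx,
      map_zero, smul_zero, smul_zero]
  · intro h
    exact absurd (Finset.mem_range.mpr (Nat.succ_pos _)) h

theorem aeval_expN {L : ℚ[X]} {D : ℕ}
    (hL : ∀ (A : Type) [Ring A] [Algebra ℚ A] (N : A), N ^ D = 0 →
      aeval (IsNilpotent.exp N) L = N) {x : Module.End E V} (hx : IsNilpotent x) (hD : x ^ D = 0) :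
    aeval (expN x) (L.map (algebraMap ℚ E)) = x := by
  letI := ratAlg E (Module.End E V)
  haveI : IsScalarTower ℚ E (Module.End E V) := IsScalarTower.of_algebraMap_eq fun r => rfl
  rw [aeval_map_algebraMap, expN_eq_exp hx]
  exact hL _ x hD

end single

theorem semiconj_aeval {E A : Type} [Field E] [Ring A] [Algebra E A] {a x y : A}
    (h : a * x = y * a) (P : E[X]) : a * aeval x P = aeval y P * a := by
  have hp : ∀ k : ℕ, a * x ^ k = y ^ k * a := by
    intro k
    induction k with
    | zero => simp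
    | succ k ih => rw [pow_succ, ← mul_assoc, ih, mul_assoc, h, ← mul_assoc, ← pow_succ]
  rw [aeval_eq_sum_range, aeval_eq_sum_range, Finset.mul_sum, Finset.sum_mul]
  refine Finset.sum_congr rfl fun k _ => ?_
  rw [mul_smul_comm, hp, smul_mul_assoc]

theorem aeval_fixed {E V : Type} [Field E] [AddCommGroup V] [Module E V] {f : Module.End E V}
    {x : V} (h : f x = x) (P : E[X]) : aeval f P x = aeval (1 : Module.End E V) P x := by
  have hp : ∀ k : ℕ, (f ^ k) x = x := by
    intro k
    induction k with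
    | zero => simp
    | succ k ih => rw [pow_succ, Module.End.mul_apply, h, ih]
  rw [aeval_eq_sum_range, aeval_eq_sum_range, LinearMap.sum_apply, LinearMap.sum_apply]
  refine Finset.sum_congr rfl fun k _ => ?_
  rw [LinearMap.smul_apply, LinearMap.smul_apply, hp, one_pow, Module.End.one_apply]

theorem t_RING (hL : S_LOG) : S_RING := by
  classical
  intro E G _ _ _ ι _ V _ _ _ ρ N I U _ _ φ t q hq hφ ht htφ hex hN hρ
  obtain ⟨D, hD⟩ : ∃ D : ℕ, ∀ i, N i ^ D = 0 := by
    refine ⟨∑ i, finrank E (V i), fun i => ?_⟩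
    refine pow_eq_zero_of_le ?_ (pow_finrank (hN i))
    exact Finset.single_le_sum (f := fun i => finrank E (V i)) (fun _ _ => Nat.zero_le _)
      (Finset.mem_univ i)
  obtain ⟨L, hL⟩ := hL D
  have hq0 : (q : E) ≠ 0 := by
    have : q ≠ 0 := by omega
    exact_mod_cast this
  -- the function `t`
  have t1 : t 1 = 0 := by
    have := ht 1 I.one_mem 1 I.one_mem
    rw [mul_one] at this
    linear_combination -this
  have tinv : ∀ g ∈ I, t g⁻¹ = - t g := by
    intro g hg
    have := ht g hg g⁻¹ (I.inv_mem hg)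
    rw [mul_inv_cancel, t1] at this
    linear_combination -this
  have tconj : ∀ g ∈ I, ∀ h ∈ I, t (g * h * g⁻¹) = t h := by
    intro g hg h hh
    rw [ht (g * h) (I.mul_mem hg hh) g⁻¹ (I.inv_mem hg), ht g hg h hh, tinv g hg]
    ring
  have tpow : ∀ g ∈ I, ∀ n : ℕ, t (g ^ n) = n * t g := by
    intro g hg n
    induction n with
    | zero => simp [t1]
    | succ n ih =>
      rw [pow_succ, ht (g ^ n) (I.pow_mem hg n) g hg, ih]
      push_cast
      ring
  obtain ⟨g1, hg1I, hg1⟩ := hex
  obtain ⟨g0, hg0I, hg0U, hc⟩ : ∃ g0 ∈ I, g0 ∈ U ∧ t g0 ≠ 0 := by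
    refine ⟨g1 ^ U.index, I.pow_mem hg1I _, U.pow_index_mem g1, ?_⟩
    rw [tpow g1 hg1I]
    exact mul_ne_zero (by exact_mod_cast Subgroup.FiniteIndex.index_ne_zero) hg1
  set c := t g0 with hcdef
  set Lp := L.map (algebraMap ℚ E) with hLp
  set ν : MonoidAlgebra E G := c⁻¹ • aeval (MonoidAlgebra.of E G g0) Lp with hνdef
  have hgof : ∀ i g, gact (ρ i) (MonoidAlgebra.of E G g) = ρ i g := by
    intro i g
    unfold gact
    rw [MonoidAlgebra.lift_of]
  have hX0 : ∀ i, ρ i g0 = expN (c • N i) := fun i => hρ i g0 hg0I hg0U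
  have haevX : ∀ i (a : E), aeval (expN (a • N i)) Lp = a • N i := fun i a =>
    aeval_expN hL (nil_smul (hN i) a) (by rw [_root_.smul_pow, hD, smul_zero])
  have haev : ∀ i, aeval (ρ i g0) Lp = c • N i := fun i => by rw [hX0]; exact haevX i c
  have hν : ∀ i, gact (ρ i) ν = N i := by
    intro i
    have h1 := hgof i g0
    unfold gact at h1 ⊢
    rw [hνdef, map_smul, ← aeval_algHom_apply, h1, haev, smul_smul, inv_mul_cancel₀ hc, one_smul]
  -- commutation
  have hcom : ∀ i, ∀ g ∈ I, Commute (ρ i g) (N i) := by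
    intro i g hg
    have h1 : ρ i g * ρ i g0 = ρ i g0 * ρ i g := by
      have h2 : ρ i (g * g0 * g⁻¹) = ρ i g0 := by
        rw [hρ i (g * g0 * g⁻¹) (I.mul_mem (I.mul_mem hg hg0I) (I.inv_mem hg))
          (Subgroup.Normal.conj_mem inferInstance g0 hg0U g), tconj g hg g0 hg0I, hX0]
      calc ρ i g * ρ i g0 = ρ i (g * g0 * g⁻¹ * g) := by
            rw [inv_mul_cancel_right, map_mul]
        _ = ρ i g0 * ρ i g := by rw [map_mul, h2]
    have h3 := semiconj_aeval h1 Lp
    rw [haev, mul_smul_comm, smul_mul_assoc] at h3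
    exact smul_right_injective _ hc h3
  have hφN : ∀ i, ρ i φ * N i = ((q : E)⁻¹ • N i) * ρ i φ := by
    intro i
    have h1 : ρ i φ * expN (c • N i) = expN (((q : E)⁻¹ * c) • N i) * ρ i φ := by
      have h2 : ρ i (φ * g0 * φ⁻¹) = expN (((q : E)⁻¹ * c) • N i) := by
        rw [hρ i (φ * g0 * φ⁻¹) ((hφ g0).mp hg0I)
          (Subgroup.Normal.conj_mem inferInstance g0 hg0U φ), htφ g0 hg0I]
      calc ρ i φ * expN (c • N i) = ρ i (φ * g0 * φ⁻¹ * φ) := by
            rw [inv_mul_cancel_right, map_mul, hX0]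
        _ = _ := by rw [map_mul, h2]
    have h3 := semiconj_aeval h1 Lp
    rw [haevX, haevX, mul_smul_comm, mul_comm (q : E)⁻¹ c, mul_smul, smul_mul_assoc] at h3
    exact smul_right_injective _ hc h3
  -- the representation `r`
  let r : (i : ι) → G → Module.End E (V i) := fun i g => ρ i g * expN ((-(t g)) • N i)
  have hr : ∀ i g, r i g = ρ i g * expN ((-(t g)) • N i) := fun i g => rfl
  have hrmul : ∀ i, ∀ g ∈ I, ∀ h ∈ I, r i g * r i h = r i (g * h) := by
    intro i g hg h hh
    have h1 : expN ((-(t g)) • N i) * ρ i h = ρ i h * expN ((-(t g)) • N i) :=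
      (X_commute (hcom i h hh) _).symm
    calc r i g * r i h = ρ i g * (expN ((-(t g)) • N i) * ρ i h) * expN ((-(t h)) • N i) := by
          rw [hr, hr]; noncomm_ring
      _ = (ρ i g * ρ i h) * (expN ((-(t g)) • N i) * expN ((-(t h)) • N i)) := by
          rw [h1]; noncomm_ring
      _ = r i (g * h) := by
          rw [X_mul (hN i), hr, map_mul, ht g hg h hh, neg_add]
  have hrone : ∀ i, ∀ h ∈ I, h ∈ U → r i h = 1 := by
    intro i h hh hU
    rw [hr, hρ i h hh hU, X_mul (hN i), add_neg_cancel, X_zero]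
  have hrN : ∀ i, ∀ g ∈ I, Commute (r i g) (N i) := by
    intro i g hg
    exact (hcom i g hg).mul_left (X_commute (Commute.refl (N i)) _).symm
  have hrφ : ∀ i, ∀ g ∈ I, ρ i φ * r i g = r i (φ * g * φ⁻¹) * ρ i φ := by
    intro i g hg
    have h1 := X_semiconj (hφN i) (-(t g))
    have h2 : (q : E)⁻¹ * -(t g) = -(t (φ * g * φ⁻¹)) := by rw [htφ g hg]; ring
    rw [h2] at h1
    calc ρ i φ * r i g = ρ i φ * ρ i g * expN ((-(t g)) • N i) := by rw [hr, mul_assoc]
      _ = ρ i (φ * g * φ⁻¹) * (ρ i φ * expN ((-(t g)) • N i)) := by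
          rw [← map_mul, ← mul_assoc, ← map_mul, inv_mul_cancel_right]
      _ = r i (φ * g * φ⁻¹) * ρ i φ := by rw [h1, hr, ← mul_assoc]
  -- the finite quotient
  let H : Subgroup I := U.subgroupOf I
  haveI : Finite (I ⧸ H) := Subgroup.finite_quotient_of_finiteIndex
  letI : Fintype (I ⧸ H) := Fintype.ofFinite _
  have hrc : ∀ i (a b : I), (QuotientGroup.mk a : I ⧸ H) = QuotientGroup.mk b →
      r i (a : G) = r i (b : G) := by
    intro i a b hab
    have h1 : a⁻¹ * b ∈ H := QuotientGroup.eq.mp hab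
    have h2 : ((a⁻¹ * b : I) : G) ∈ U := Subgroup.mem_subgroupOf.mp h1
    calc r i (a : G) = r i (a : G) * r i ((a⁻¹ * b : I) : G) := by
          rw [hrone i _ (a⁻¹ * b).2 h2, mul_one]
      _ = r i (b : G) := by
          rw [hrmul i _ a.2 _ (a⁻¹ * b).2]
          congr 1
          push_cast
          group
  let A : (i : ι) → Module.End E (V i) := fun i => ∑ k : I ⧸ H, r i ((k.out : I) : G)
  have hA : ∀ i, A i = ∑ k : I ⧸ H, r i ((k.out : I) : G) := fun i => rfl
  have hmulA : ∀ i (h : I), r i (h : G) * A i = A i := by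
    intro i h
    rw [hA, Finset.mul_sum]
    rw [← Equiv.sum_comp (Equiv.mulLeft (QuotientGroup.mk h : I ⧸ H))
      (fun k => r i ((k.out : I) : G))]
    refine Finset.sum_congr rfl fun k _ => ?_
    rw [hrmul i _ h.2 _ (k.out).2, ← Subgroup.coe_mul]
    apply hrc
    rw [QuotientGroup.mk_mul, QuotientGroup.out_eq', QuotientGroup.out_eq', Equiv.coe_mulLeft]
  have hAA : ∀ i, A i * A i = (Fintype.card (I ⧸ H) : E) • A i := by
    intro i
    conv_lhs => rw [hA i]
    rw [Finset.sum_mul, Finset.sum_congr rfl fun k _ => hmulA i k.out, Finset.sum_const,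
      Finset.card_univ, Nat.cast_smul_eq_nsmul]
  have hn0 : (Fintype.card (I ⧸ H) : E) ≠ 0 := by
    have : Fintype.card (I ⧸ H) ≠ 0 := Fintype.card_ne_zero
    exact_mod_cast this
  have hAN : ∀ i, Commute (A i) (N i) := fun i =>
    Commute.sum_left _ _ _ fun k _ => hrN i _ (k.out).2
  have hAφ : ∀ i, ρ i φ * A i = A i * ρ i φ := by
    intro i
    let σ : I ⧸ H → I ⧸ H := fun k =>
      QuotientGroup.mk ⟨φ * ((k.out : I) : G) * φ⁻¹, (hφ _).mp (k.out).2⟩
    have hσ : Function.Injective σ := by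
      intro a b hab
      have h1 : _ ∈ H := QuotientGroup.eq.mp hab
      rw [Subgroup.mem_subgroupOf] at h1
      have h2 : φ * (((a.out : I) : G)⁻¹ * ((b.out : I) : G)) * φ⁻¹ ∈ U := by
        convert h1 using 1
        push_cast
        group
      have h3 : ((a.out : I) : G)⁻¹ * ((b.out : I) : G) ∈ U := by
        have := Subgroup.Normal.conj_mem (H := U) inferInstance _ h2 φ⁻¹
        convert this using 1
        group
      rw [← QuotientGroup.out_eq' a, ← QuotientGroup.out_eq' b]
      exact QuotientGroup.eq.mpr (Subgroup.mem_subgroupOf.mpr (by push_cast; exact h3))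
    have hσb : Function.Bijective σ := Finite.injective_iff_bijective.mp hσ
    rw [hA, Finset.mul_sum, Finset.sum_mul]
    rw [← Equiv.sum_comp (Equiv.ofBijective σ hσb) (fun k => r i ((k.out : I) : G) * ρ i φ)]
    refine Finset.sum_congr rfl fun k _ => ?_
    rw [hrφ i _ (k.out).2]
    congr 1
    rw [Equiv.ofBijective_apply]
    exact hrc i ⟨φ * ((k.out : I) : G) * φ⁻¹, (hφ _).mp (k.out).2⟩ (σ k).out
      (by rw [QuotientGroup.out_eq'])
  -- the idempotent
  let e : MonoidAlgebra E G := ((Fintype.card (I ⧸ H) : E)⁻¹) • ∑ k : I ⧸ H,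
    MonoidAlgebra.of E G ((k.out : I) : G) *
      ∑ j ∈ Finset.range D, ((j.factorial : E)⁻¹) • ((-(t ((k.out : I) : G))) • ν) ^ j
  have he : ∀ i, gact (ρ i) e = ((Fintype.card (I ⧸ H) : E)⁻¹) • A i := by
    intro i
    have h1 := hν i
    have h2 := hgof i
    unfold gact at h1 h2 ⊢
    rw [map_smul, map_sum]
    congr 1
    refine Finset.sum_congr rfl fun k _ => ?_
    rw [map_mul, h2, map_sum, hr, expN_eq_sum (nil_smul (hN i) _) (n := D)
      (by rw [_root_.smul_pow, hD, smul_zero])]
    congr 1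
    refine Finset.sum_congr rfl fun j _ => ?_
    rw [map_smul, map_pow, map_smul, h1]
  refine ⟨ν, e, fun i => ⟨hν i, ?_, ?_, ?_, ?_, ?_⟩⟩
  · rw [hφN i, smul_mul_assoc, smul_smul, mul_inv_cancel₀ hq0, one_smul]
  · have h1 : gact (ρ i) (e * e) = gact (ρ i) e * gact (ρ i) e := by
      unfold gact
      rw [map_mul]
    rw [h1, he, smul_mul_smul_comm, hAA, smul_smul]
    congr 1
    field_simp
  · rw [he]
    exact (hAN i).smul_left _
  · rw [he]
    refine Commute.smul_left ?_ _
    exact (hAφ i).symm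
  · intro x
    constructor
    · intro hx
      have hNx : N i x = 0 := by
        have h1 := aeval_fixed (hx g0 hg0I) Lp
        have h2 : aeval (1 : Module.End E (V i)) Lp = 0 := by
          have := haevX i 0
          rwa [X_zero, zero_smul] at this
        rw [haev, h2, LinearMap.smul_apply, LinearMap.zero_apply] at h1
        exact (smul_eq_zero.mp h1).resolve_left hc
      refine ⟨hNx, ?_⟩
      rw [he, LinearMap.smul_apply, hA, LinearMap.sum_apply]
      have h3 : ∀ k : I ⧸ H, r i ((k.out : I) : G) x = x := by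
        intro k
        rw [hr, Module.End.mul_apply, X_apply _ hNx]
        exact hx _ (k.out).2
      rw [Finset.sum_congr rfl fun k _ => h3 k, Finset.sum_const, Finset.card_univ,
        ← Nat.cast_smul_eq_nsmul E, smul_smul, inv_mul_cancel₀ hn0, one_smul]
    · rintro ⟨hNx, hex⟩ g hg
      have h1 : r i g x = ρ i g x := by
        rw [hr, Module.End.mul_apply, X_apply _ hNx]
      rw [← h1]
      conv_lhs => rw [← hex, he, LinearMap.smul_apply, map_smul, ← Module.End.mul_apply]
      rw [hmulA i ⟨g, hg⟩, ← LinearMap.smul_apply, ← he, hex]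

end Pool.Agent.U962.PT
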